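import Pool.Agent.H884R2.HFP.Cor
import Pool.Agent.H160R2.HF.Final
import Pool.Agent.H249R2.PM.Round

/-!
# Averaging over the 2-factors of a bridgeless cubic graph
-/

set_option autoImplicit false
set_option linter.unusedSectionVars false

namespace Pool.Agent.TH583.FO

open Finset Pool.Agent.H160R2.HF

variable {V E : Type} [Fintype V] [Fintype E] [DecidableEq V] [DecidableEq E]

/-- the vertex sets of the odd circuits of the 2-factor `F` -/
noncomputable def oddSets (G : OrGraph V E) (F : Finset E) : Finset (Finset V) := by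
  classical
  exact univ.filter fun S => Odd S.card ∧ ∃ c : (G.sub F).ConnectedComponent, c.supp = (S : Set V)

theorem mem_oddSets {G : OrGraph V E} {F : Finset E} {S : Finset V} :
    S ∈ oddSets G F ↔ Odd S.card ∧ ∃ c : (G.sub F).ConnectedComponent, c.supp = (S : Set V) := by
  classical
  unfold oddSets
  rw [Finset.mem_filter]
  exact ⟨fun h => h.2, fun h => ⟨Finset.mem_univ _, h⟩⟩

theorem cut_one (G : OrGraph V E) (hc : G.Cubic) (hb : G.Bridgeless) (v : V) :
    (G.cut {v}).card = 3 := by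
  have h := G.handshake univ {v}
  rw [Finset.sum_singleton, hc v, Finset.inter_univ] at h
  have := G.cut_card_ne_one hb {v}
  omega

theorem noloop (G : OrGraph V E) (hc : G.Cubic) (hb : G.Bridgeless) (e : E) : G.t e ≠ G.h e := by
  intro he
  have h := G.handshake univ {G.t e}
  rw [Finset.sum_singleton, hc, Finset.inter_univ, cut_one G hc hb] at h
  have h0 : (univ.filter (fun e' => G.t e' ∈ ({G.t e} : Finset V) ∧
      G.h e' ∈ ({G.t e} : Finset V))).card = 0 := by omega
  rw [Finset.card_eq_zero] at h0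
  have h1 : e ∈ univ.filter (fun e' => G.t e' ∈ ({G.t e} : Finset V) ∧
      G.h e' ∈ ({G.t e} : Finset V)) := by
    rw [Finset.mem_filter]
    exact ⟨Finset.mem_univ _, Finset.mem_singleton_self _, Finset.mem_singleton.2 he.symm⟩
  rw [h0] at h1
  exact absurd h1 (Finset.notMem_empty _)

theorem cut_odd (G : OrGraph V E) (hc : G.Cubic) (S : Finset V) (hS : Odd S.card) :
    Odd (G.cut S).card := by
  have h := G.handshake univ S
  rw [Finset.sum_congr rfl (fun v _ => hc v), Finset.sum_const, smul_eq_mul,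
    Finset.inter_univ] at h
  obtain ⟨k, hk⟩ := hS
  rw [hk] at h
  by_contra hcon
  rw [Nat.not_odd_iff_even] at hcon
  obtain ⟨m, hm⟩ := hcon
  omega

theorem cut_three (G : OrGraph V E) (hc : G.Cubic) (hb : G.Bridgeless) (S : Finset V)
    (hS : Odd S.card) : 3 ≤ (G.cut S).card := by
  have h1 := cut_odd G hc S hS
  have h2 := G.cut_card_ne_one hb S
  obtain ⟨k, hk⟩ := h1
  omega

theorem even_card (G : OrGraph V E) (hc : G.Cubic) : Even (Fintype.card V) := by
  by_contra hodd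
  rw [Nat.not_even_iff_odd] at hodd
  have h1 := cut_odd G hc univ (by rw [Finset.card_univ]; exact hodd)
  have h0 : G.cut univ = ∅ := by simp [OrGraph.cut]
  rw [h0] at h1
  simp at h1

theorem cr_eq (G : OrGraph V E) (S : Finset V) :
    univ.filter (Pool.Agent.H249R2.PM.Cr G.t G.h S) = G.cut S := by
  ext e
  simp [OrGraph.cut, Pool.Agent.H249R2.PM.Cr]

theorem cut_eq (G : OrGraph V E) (S : Finset V) :
    Pool.Agent.H249R2.PM.cut G.t G.h (fun _ => (1 / 3 : ℝ)) S = ((G.cut S).card : ℝ) / 3 := by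
  unfold Pool.Agent.H249R2.PM.cut
  rw [Finset.sum_const, nsmul_eq_mul, cr_eq]
  ring

theorem fr (G : OrGraph V E) (hc : G.Cubic) (hb : G.Bridgeless) :
    Pool.Agent.H249R2.PM.Fr G.t G.h (fun _ => (1 / 3 : ℝ)) := by
  refine ⟨fun _ => by norm_num, fun v => ?_, fun S hS => ?_⟩
  · rw [cut_eq, cut_one G hc hb]; norm_num
  · rw [cut_eq]
    have h := cut_three G hc hb S hS
    have h' : (3 : ℝ) ≤ (G.cut S).card := by exact_mod_cast h
    linarith

theorem deg_pm (G : OrGraph V E) {M : Finset E} (hM : Pool.Agent.H249R2.PM.IsPM G.t G.h M) (v : V) :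
    G.deg M v = 1 := by
  have h := G.handshake M {v}
  rw [Finset.sum_singleton] at h
  have h0 : (M.filter (fun e => G.t e ∈ ({v} : Finset V) ∧ G.h e ∈ ({v} : Finset V))).card = 0 := by
    rw [Finset.card_eq_zero, Finset.filter_eq_empty_iff]
    intro e he h
    exact hM.noloop e he ((Finset.mem_singleton.1 h.1).trans (Finset.mem_singleton.1 h.2).symm)
  have h1 : G.cut {v} ∩ M = M.filter (Pool.Agent.H249R2.PM.Cr G.t G.h {v}) := by
    rw [← cr_eq]
    ext e
    simp [and_comm]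
  rw [h0, h1, hM.deg v] at h
  exact h

theorem out_pos (G : OrGraph V E) {M : Finset E} (hM : Pool.Agent.H249R2.PM.IsPM G.t G.h M)
    (S : Finset V) (hS : Odd S.card) : 1 ≤ (G.cut S ∩ M).card := by
  have h := G.handshake M S
  rw [Finset.sum_congr rfl (fun v _ => deg_pm G hM v), Finset.sum_const, smul_eq_mul] at h
  obtain ⟨k, hk⟩ := hS
  omega

theorem sumc (G : OrGraph V E) (Z T : Finset (Finset V)) (a : Finset V → ℝ) (K : ℝ)
    (P : Finset E) :
    ∑ e ∈ P, ((∑ S ∈ Z, a S * (if e ∈ G.cut S then 1 else 0)) +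
      K * ∑ X ∈ T, (if e ∈ G.cut X then (1 : ℝ) else 0)) =
    (∑ S ∈ Z, a S * ((G.cut S ∩ P).card : ℝ)) + K * ∑ X ∈ T, ((G.cut X ∩ P).card : ℝ) := by
  have hk : ∀ S : Finset V, ∑ e ∈ P, (if e ∈ G.cut S then (1 : ℝ) else 0)
      = ((G.cut S ∩ P).card : ℝ) := by
    intro S
    rw [Finset.sum_boole]
    congr 2
    ext e
    simp [and_comm]
  rw [Finset.sum_add_distrib, Finset.sum_comm, ← Finset.mul_sum,
    Finset.sum_comm (s := P) (t := T)]
  congr 1
  · refine Finset.sum_congr rfl fun S _ => ?_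
    rw [← Finset.mul_sum, hk]
  · rw [Finset.sum_congr rfl fun S _ => hk S]

/-- **Averaging.** -/
theorem avg (G : OrGraph V E) (hc : G.Cubic) (hb : G.Bridgeless) (Z : Finset (Finset V))
    (hZ : ∀ S ∈ Z, Odd S.card) (y : Finset V → ℝ) (hy : ∀ S, 0 ≤ y S) :
    ∃ F : Finset E, G.IsTwoFactor F ∧
      (∀ X : Finset V, (G.cut X).card = 3 → (G.cut X ∩ F).Nonempty) ∧
      ∑ S ∈ Z.filter (fun S => G.cut S ∩ F = ∅), y S ≤
        ∑ S ∈ Z, y S * ((((G.cut S).card : ℝ) - 3) / (3 * ((G.cut S).card - 1))) := by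
  classical
  obtain ⟨R, hR⟩ : ∃ R : ℝ, R = ∑ S ∈ Z,
    y S * ((((G.cut S).card : ℝ) - 3) / (3 * ((G.cut S).card - 1))) := ⟨_, rfl⟩
  rw [← hR]
  obtain ⟨T, hT⟩ : ∃ T : Finset (Finset V), T = univ.filter fun X => (G.cut X).card = 3 := ⟨_, rfl⟩
  obtain ⟨a, ha⟩ : ∃ a : Finset V → ℝ, a = fun S => y S / ((G.cut S).card - 1) := ⟨_, rfl⟩
  have hTodd : ∀ X ∈ T, Odd X.card := by
    intro X hX
    rw [hT, Finset.mem_filter] at hX
    have h := G.handshake univ X
    rw [Finset.sum_congr rfl (fun v _ => hc v), Finset.sum_const, smul_eq_mul,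
      Finset.inter_univ, hX.2] at h
    by_contra hcon
    rw [Nat.not_odd_iff_even] at hcon
    obtain ⟨m, hm⟩ := hcon
    omega
  obtain ⟨M, hM, _, hcost⟩ := Pool.Agent.H249R2.PM.round (Fintype.card V) V rfl (even_card G hc)
    G.t G.h (fun _ => (1 / 3 : ℝ)) (fun e => (∑ S ∈ Z, a S * (if e ∈ G.cut S then 1 else 0)) +
      (R + 1) * ∑ X ∈ T, (if e ∈ G.cut X then (1 : ℝ) else 0)) (fr G hc hb)
  have hall : univ.filter (fun e => G.t e ≠ G.h e) = univ :=
    Finset.filter_true_of_mem fun e _ => noloop G hc hb e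
  rw [hall, ← Finset.sum_mul, sumc, sumc] at hcost
  simp only [Finset.inter_univ] at hcost
  have hT3 : ∑ X ∈ T, ((G.cut X).card : ℝ) = 3 * T.card := by
    rw [Finset.sum_congr rfl (fun X hX => ?_), Finset.sum_const, nsmul_eq_mul, mul_comm]
    rw [hT, Finset.mem_filter] at hX
    rw [hX.2]; norm_num
  have hd : ∀ S ∈ Z, (3 : ℝ) ≤ (G.cut S).card := fun S hS => by
    exact_mod_cast cut_three G hc hb S (hZ S hS)
  have hZavg : ∑ S ∈ Z, y S * ((((G.cut S).card : ℝ) - 3) / (3 * ((G.cut S).card - 1))) =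
      (∑ S ∈ Z, a S * ((G.cut S).card : ℝ)) * (1 / 3) - ∑ S ∈ Z, a S := by
    rw [Finset.sum_mul, ← Finset.sum_sub_distrib]
    refine Finset.sum_congr rfl fun S hS => ?_
    have h3 := hd S hS
    have h1 : ((G.cut S).card : ℝ) - 1 ≠ 0 := by
      intro h
      linarith
    rw [ha]
    field_simp
  have hR0 : 0 ≤ R := by
    rw [hR]
    refine Finset.sum_nonneg fun S hS => mul_nonneg (hy S) ?_
    have h3 := hd S hS
    exact div_nonneg (by linarith) (by linarith)
  have h1 : (∑ S ∈ Z, a S * (((G.cut S ∩ M).card : ℝ) - 1)) +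
      (R + 1) * ∑ X ∈ T, (((G.cut X ∩ M).card : ℝ) - 1) ≤ R := by
    have e1 : ∑ S ∈ Z, a S * (((G.cut S ∩ M).card : ℝ) - 1) =
        ∑ S ∈ Z, a S * ((G.cut S ∩ M).card : ℝ) - ∑ S ∈ Z, a S := by
      rw [← Finset.sum_sub_distrib]
      exact Finset.sum_congr rfl fun S _ => by ring
    have e2 : ∑ X ∈ T, (((G.cut X ∩ M).card : ℝ) - 1) =
        ∑ X ∈ T, ((G.cut X ∩ M).card : ℝ) - T.card := by
      rw [Finset.sum_sub_distrib, Finset.sum_const, nsmul_eq_mul, mul_one]
    rw [e1, e2]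
    rw [hT3] at hcost
    rw [hR, hZavg] at hcost ⊢
    nlinarith [hcost]
  have ha0 : ∀ S ∈ Z, 0 ≤ a S := by
    intro S hS
    rw [ha]
    exact div_nonneg (hy S) (by have := hd S hS; linarith)
  have hpos : ∀ S : Finset V, Odd S.card → (0 : ℝ) ≤ ((G.cut S ∩ M).card : ℝ) - 1 := by
    intro S hS
    have h : (1 : ℝ) ≤ (G.cut S ∩ M).card := by exact_mod_cast out_pos G hM S hS
    linarith
  have hA : 0 ≤ ∑ S ∈ Z, a S * (((G.cut S ∩ M).card : ℝ) - 1) :=
    Finset.sum_nonneg fun S hS => mul_nonneg (ha0 S hS) (hpos S (hZ S hS))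
  have hB : 0 ≤ ∑ X ∈ T, (((G.cut X ∩ M).card : ℝ) - 1) :=
    Finset.sum_nonneg fun X hX => hpos X (hTodd X hX)
  refine ⟨Mᶜ, ?_, ?_, ?_⟩
  · intro v
    have h1 := hc v
    have h2 := deg_pm G hM v
    unfold OrGraph.deg at h1 h2 ⊢
    have h3 : ∀ k : E → V, (univ.filter (fun e => k e = v)).card =
        (M.filter (fun e => k e = v)).card + (Mᶜ.filter (fun e => k e = v)).card := by
      intro k
      rw [← Finset.card_union_of_disjoint]
      · rw [← Finset.filter_union, Finset.union_compl]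
      · exact Finset.disjoint_filter_filter (disjoint_compl_right)
    rw [h3, h3] at h1
    omega
  · intro X hX
    have hXT : X ∈ T := by rw [hT, Finset.mem_filter]; exact ⟨Finset.mem_univ _, hX⟩
    have h2 : ((G.cut X ∩ M).card : ℝ) - 1 ≤ ∑ X ∈ T, (((G.cut X ∩ M).card : ℝ) - 1) :=
      Finset.single_le_sum (f := fun X => ((G.cut X ∩ M).card : ℝ) - 1)
        (fun X hX => hpos X (hTodd X hX)) hXT
    have h3 : ((G.cut X ∩ M).card : ℝ) < 2 := by
      by_contra hcon
      have h7 : (1 : ℝ) ≤ ∑ X ∈ T, (((G.cut X ∩ M).card : ℝ) - 1) := by linarith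
      nlinarith
    have h4 : (G.cut X ∩ M).card < 2 := by exact_mod_cast h3
    rw [Finset.nonempty_iff_ne_empty]
    intro h5
    have h6 : G.cut X ⊆ M := by
      intro e he
      by_contra hne
      have : e ∈ G.cut X ∩ Mᶜ := Finset.mem_inter.2 ⟨he, Finset.mem_compl.2 hne⟩
      rw [h5] at this
      exact absurd this (Finset.notMem_empty _)
    rw [Finset.inter_eq_left.2 h6, hX] at h4
    omega
  · have h2 : ∑ S ∈ Z.filter (fun S => G.cut S ∩ Mᶜ = ∅), y S ≤
        ∑ S ∈ Z, a S * (((G.cut S ∩ M).card : ℝ) - 1) := by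
      have e1 : ∑ S ∈ Z.filter (fun S => G.cut S ∩ Mᶜ = ∅), y S =
          ∑ S ∈ Z.filter (fun S => G.cut S ∩ Mᶜ = ∅), a S * (((G.cut S ∩ M).card : ℝ) - 1) := by
        refine Finset.sum_congr rfl fun S hS => ?_
        rw [Finset.mem_filter] at hS
        have h6 : G.cut S ⊆ M := by
          intro e he
          by_contra hne
          have : e ∈ G.cut S ∩ Mᶜ := Finset.mem_inter.2 ⟨he, Finset.mem_compl.2 hne⟩
          rw [hS.2] at this
          exact absurd this (Finset.notMem_empty _)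
        rw [Finset.inter_eq_left.2 h6, ha]
        have h3 := hd S hS.1
        have h1 : ((G.cut S).card : ℝ) - 1 ≠ 0 := by
          intro h
          linarith
        field_simp
      rw [e1]
      exact Finset.sum_le_sum_of_subset_of_nonneg (Finset.filter_subset _ _)
        fun S hS _ => mul_nonneg (ha0 S hS) (hpos S (hZ S hS))
    have h3 : 0 ≤ (R + 1) * ∑ X ∈ T, (((G.cut X ∩ M).card : ℝ) - 1) :=
      mul_nonneg (by linarith) hB
    linarith

end Pool.Agent.TH583.FO
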