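import Pool.Agent.TH583.FO.Strong

/-!
# Odd circuits of 2-factors in the language of multigraphs
-/

set_option autoImplicit false
set_option linter.unusedSectionVars false

namespace Pool.Agent.TH583.FO

open Finset Pool.Agent.H160R2.HF Pool.Agent.Helper347.Sab

variable {V E : Type} [Fintype V] [DecidableEq V] [Fintype E] [DecidableEq E]

theorem adj_iff (G : MGraph V E) (F : Finset E) (x y : V) :
    ((orient G).sub F).Adj x y ↔ ∃ e ∈ F, G.ends e = s(x, y) := by
  rw [OrGraph.sub, SimpleGraph.fromRel_adj]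
  constructor
  · rintro ⟨_, ⟨e, he, h1, h2⟩ | ⟨e, he, h1, h2⟩⟩
    · refine ⟨e, he, ?_⟩
      rw [ends_eq, h1, h2]
    · refine ⟨e, he, ?_⟩
      rw [ends_eq, h1, h2, Sym2.eq_swap]
  · rintro ⟨e, he, h⟩
    have hne : x ≠ y := by
      rintro rfl
      apply G.loopless e
      rw [h]
      exact Sym2.mk_isDiag_iff.2 rfl
    refine ⟨hne, ?_⟩
    rw [ends_eq, Sym2.eq_iff] at h
    rcases h with ⟨h1, h2⟩ | ⟨h1, h2⟩
    · exact Or.inl ⟨e, he, h1, h2⟩
    · exact Or.inr ⟨e, he, h1, h2⟩

theorem rel_eq (G : MGraph V E) (F : Finset E) :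
    ((orient G).sub F).Adj = fun x y => ∃ e ∈ F, G.ends e = s(x, y) := by
  funext x y
  exact propext (adj_iff G F x y)

theorem reach_iff (G : MGraph V E) (F : Finset E) (v u : V) :
    ((orient G).sub F).Reachable v u ↔
      Relation.ReflTransGen (fun x y => ∃ e ∈ F, G.ends e = s(x, y)) v u := by
  rw [SimpleGraph.reachable_iff_reflTransGen, rel_eq]

theorem odd_iff (G : MGraph V E) (S : Finset V) :
    S ∈ allOdd (orient G) ↔ (Odd S.card ∧ ∃ F : Finset E, (∀ v, dg G F v = 2) ∧ ∃ v, ∀ u, u ∈ S ↔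
      Relation.ReflTransGen (fun x y => ∃ e ∈ F, G.ends e = s(x, y)) v u) := by
  rw [mem_allOdd]
  constructor
  · rintro ⟨F, hF, hS⟩
    obtain ⟨ho, c, hc⟩ := mem_oddSets.1 hS
    refine ⟨ho, F, fun v => ?_, ?_⟩
    · rw [← deg_eq]
      exact hF v
    · obtain ⟨v, hv⟩ := c.exists_rep
      refine ⟨v, fun u => ?_⟩
      rw [← reach_iff, ← Finset.mem_coe, ← hc, SimpleGraph.ConnectedComponent.mem_supp_iff]
      rw [← hv]
      constructor
      · intro h
        exact (SimpleGraph.ConnectedComponent.exact h).symm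
      · intro h
        exact SimpleGraph.ConnectedComponent.sound h.symm
  · rintro ⟨ho, F, hF, v, hv⟩
    refine ⟨F, fun u => ?_, mem_oddSets.2 ⟨ho, ((orient G).sub F).connectedComponentMk v, ?_⟩⟩
    · rw [deg_eq]
      exact hF u
    · ext u
      rw [SimpleGraph.ConnectedComponent.mem_supp_iff, Finset.mem_coe, hv, ← reach_iff]
      constructor
      · intro h
        exact (SimpleGraph.ConnectedComponent.exact h).symm
      · intro h
        exact SimpleGraph.ConnectedComponent.sound h.symm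

theorem cutM_eq (G : MGraph V E) (K : Finset V) :
    (orient G).cut K =
      univ.filter fun e => (∃ u, u ∈ G.ends e ∧ u ∈ K) ∧ ∃ w, w ∈ G.ends e ∧ w ∉ K := by
  unfold OrGraph.cut
  refine Finset.filter_congr fun e _ => ?_
  constructor
  · intro h
    by_cases h1 : (orient G).t e ∈ K
    · have h2 : (orient G).h e ∉ K := fun h2 => h ⟨fun _ => h2, fun _ => h1⟩
      exact ⟨⟨_, (mem_ends G e _).2 (Or.inl rfl), h1⟩, _, (mem_ends G e _).2 (Or.inr rfl), h2⟩
    · have h2 : (orient G).h e ∈ K := by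
        by_contra h2
        exact h ⟨fun h3 => absurd h3 h1, fun h3 => absurd h3 h2⟩
      exact ⟨⟨_, (mem_ends G e _).2 (Or.inr rfl), h2⟩, _, (mem_ends G e _).2 (Or.inl rfl), h1⟩
  · rintro ⟨⟨u, hu, huK⟩, w, hw, hwK⟩ h
    rw [mem_ends] at hu hw
    rcases hu with rfl | rfl <;> rcases hw with rfl | rfl
    · exact hwK huK
    · exact hwK (h.1 huK)
    · exact hwK (h.2 huK)
    · exact hwK huK

theorem colourM (G : MGraph V E) (hG : IsCubic G)
    (hbr : ∀ e : E, ∃ X : Finset E, IsCircuit G X ∧ e ∈ X) (K : Finset V)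
    (hfew : ∑ S ∈ (allOdd (orient G)).filter (fun S => S ⊆ K),
      ((((orient G).cut S).card : ℝ) - 3) / (3 * (((orient G).cut S).card - 1)) < 1) :
    ∃ col : E → Fin 3, ∀ v ∈ K, ∀ e f : E, v ∈ G.ends e → v ∈ G.ends f →
      e ≠ f → col e ≠ col f := by
  obtain ⟨col, h⟩ := colour (orient G) (fun v => by rw [deg_eq]; exact hG v) (bridgeless G hbr) K
    hfew
  refine ⟨col, fun v hv e f he hf hef => h v hv e f ?_ ?_ hef⟩
  · rw [mem_ends] at he
    exact he.imp Eq.symm Eq.symm
  · rw [mem_ends] at hf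
    exact hf.imp Eq.symm Eq.symm

/-- at most three sets with at least five leaving edges -/
theorem few_three (G : OrGraph V E) (hc : G.Cubic) (hb : G.Bridgeless) (T : Finset (Finset V))
    (hodd : ∀ S ∈ T, Odd S.card) (hcard : (T.filter fun S => 5 ≤ (G.cut S).card).card ≤ 3) :
    ∑ S ∈ T, (((G.cut S).card : ℝ) - 3) / (3 * ((G.cut S).card - 1)) < 1 := by
  rw [← Finset.sum_filter_add_sum_filter_not T (fun S => 5 ≤ (G.cut S).card)]
  have h0 : ∑ S ∈ T.filter (fun S => ¬ 5 ≤ (G.cut S).card),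
      (((G.cut S).card : ℝ) - 3) / (3 * ((G.cut S).card - 1)) = 0 := by
    refine Finset.sum_eq_zero fun S hS => ?_
    rw [Finset.mem_filter] at hS
    have h3 := cut_three G hc hb S (hodd S hS.1)
    obtain ⟨m, hm⟩ := cut_odd G hc S (hodd S hS.1)
    have h4 : (G.cut S).card = 3 := by omega
    rw [h4]; norm_num
  rw [h0, add_zero]
  rcases (T.filter fun S => 5 ≤ (G.cut S).card).eq_empty_or_nonempty with he | hne
  · rw [he, Finset.sum_empty]; norm_num
  · have h5 : ∑ S ∈ T.filter (fun S => 5 ≤ (G.cut S).card),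
        (((G.cut S).card : ℝ) - 3) / (3 * ((G.cut S).card - 1)) <
        ∑ S ∈ T.filter (fun S => 5 ≤ (G.cut S).card), (1 / 3 : ℝ) := by
      refine Finset.sum_lt_sum_of_nonempty hne fun S hS => ?_
      rw [Finset.mem_filter] at hS
      have h5 : (5 : ℝ) ≤ (G.cut S).card := by exact_mod_cast hS.2
      rw [div_lt_div_iff₀ (by linarith) (by norm_num)]
      linarith
    refine h5.trans_le ?_
    rw [Finset.sum_const, nsmul_eq_mul]
    have h6 : ((T.filter fun S => 5 ≤ (G.cut S).card).card : ℝ) ≤ 3 := by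
      exact_mod_cast hcard
    linarith

theorem few_threeM (G : MGraph V E) (hG : IsCubic G)
    (hbr : ∀ e : E, ∃ X : Finset E, IsCircuit G X ∧ e ∈ X) (T : Finset (Finset V))
    (hodd : ∀ S ∈ T, Odd S.card)
    (hcard : (T.filter fun S => 5 ≤ ((orient G).cut S).card).card ≤ 3) :
    ∑ S ∈ T, ((((orient G).cut S).card : ℝ) - 3) / (3 * (((orient G).cut S).card - 1)) < 1 :=
  few_three (orient G) (fun v => by rw [deg_eq]; exact hG v) (bridgeless G hbr) T hodd hcard

end Pool.Agent.TH583.FO
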