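import Pool.Agent.TH583.FO.Avg

/-!
# `1/2`-flow-pairs from averaging over 2-factors
-/

set_option autoImplicit false
set_option linter.unusedSectionVars false

namespace Pool.Agent.TH583.FO

open Finset Pool.Agent.H160R2.HF

variable {V E : Type} [Fintype V] [Fintype E] [DecidableEq V] [DecidableEq E]

theorem cut_comp (G : OrGraph V E) (hl : ∀ e, G.t e ≠ G.h e) {F : Finset E} {S : Finset V}
    (c : (G.sub F).ConnectedComponent) (hcs : c.supp = (S : Set V)) : G.cut S ∩ F = ∅ := by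
  rw [Finset.eq_empty_iff_forall_notMem]
  intro e he
  rw [Finset.mem_inter] at he
  have h1 := he.1
  rw [OrGraph.cut, Finset.mem_filter] at h1
  apply h1.2
  have hadj : (G.sub F).Adj (G.t e) (G.h e) := by
    rw [OrGraph.sub, SimpleGraph.fromRel_adj]
    exact ⟨hl e, Or.inl ⟨e, he.2, rfl, rfl⟩⟩
  have hm : ∀ v, v ∈ S ↔ (G.sub F).connectedComponentMk v = c := by
    intro v
    rw [← Finset.mem_coe, ← hcs, SimpleGraph.ConnectedComponent.mem_supp_iff]
  rw [hm, hm, SimpleGraph.ConnectedComponent.sound hadj.reachable]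

theorem cycle_of_comp (G : OrGraph V E) (hl : ∀ e, G.t e ≠ G.h e) {F : Finset E}
    (hF : G.IsTwoFactor F) (X : Finset V) (u : V)
    (hu : ∀ v, (G.sub F).Reachable u v → v ∈ X) : G.HasCycleIn X := by
  classical
  obtain ⟨S, hS⟩ : ∃ S : Finset V, S = univ.filter fun v => (G.sub F).Reachable u v := ⟨_, rfl⟩
  have h1 : G.cut S ∩ F = ∅ := by
    refine cut_comp G hl ((G.sub F).connectedComponentMk u) ?_
    ext v
    rw [SimpleGraph.ConnectedComponent.mem_supp_iff, SimpleGraph.ConnectedComponent.eq, hS]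
    simp only [Finset.coe_filter, Finset.mem_univ, true_and]
    exact ⟨fun h => h.symm, fun h => h.symm⟩
  have h2 : S.Nonempty := ⟨u, by rw [hS, Finset.mem_filter]; exact ⟨Finset.mem_univ _, .rfl⟩⟩
  obtain ⟨C, hC1, hC2, hC3⟩ := G.hasCycleIn_of_cut F hF S h1 h2
  have hSX : ∀ v ∈ S, v ∈ X := by
    intro v hv
    rw [hS, Finset.mem_filter] at hv
    exact hu v hv.2
  exact ⟨C, hC1, fun e he => ⟨hSX _ (hC2 e he).1, hSX _ (hC2 e he).2⟩, hC3⟩

theorem good (G : OrGraph V E) (hc : G.Cubic) (hb : G.Bridgeless) (t : ℕ)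
    (hcon : t = 1 ∨ ∀ X : Finset V, G.HasCycleIn X → G.HasCycleIn Xᶜ →
      5 * t - 1 ≤ (G.cut X).card)
    (F : Finset E) (hF : G.IsTwoFactor F)
    (h3 : ∀ X : Finset V, (G.cut X).card = 3 → (G.cut X ∩ F).Nonempty)
    (ht : G.oddCount F ≤ 2 * t) :
    ∃ φ₂ φ₄ : E → ℤ, G.IsHalfFlowPair φ₂ φ₄ ∧ ∀ e, φ₂ e ≠ 0 ↔ e ∈ F := by
  rcases hcon with rfl | hcon
  · exact (G.pair_iff hc hb F hF (by omega)).2 h3
  · refine Pool.Agent.H884R2.HFP.exists_pair_of_separating G hc F hF t ht ?_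
    intro X hX hX'
    obtain ⟨u, _, _, hu2⟩ := hX
    obtain ⟨w, _, _, hw2⟩ := hX'
    refine hcon X (cycle_of_comp G (noloop G hc hb) hF X u hu2)
      (cycle_of_comp G (noloop G hc hb) hF Xᶜ w fun v hv => ?_)
    rw [Finset.mem_compl]
    exact hw2 v hv

/-- the vertex sets of the odd circuits of all 2-factors -/
noncomputable def allOdd (G : OrGraph V E) : Finset (Finset V) := by
  classical
  exact univ.filter fun S => ∃ F : Finset E, G.IsTwoFactor F ∧ S ∈ oddSets G F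

theorem mem_allOdd {G : OrGraph V E} {S : Finset V} :
    S ∈ allOdd G ↔ ∃ F : Finset E, G.IsTwoFactor F ∧ S ∈ oddSets G F := by
  classical
  unfold allOdd
  rw [Finset.mem_filter]
  exact ⟨fun h => h.2, fun h => ⟨Finset.mem_univ _, h⟩⟩

/-- a 2-factor with few odd circuits -/
theorem factor (G : OrGraph V E) (hc : G.Cubic) (hb : G.Bridgeless)
    (y : Finset V → ℝ) (hy : ∀ S, 0 ≤ y S) :
    ∃ F : Finset E, G.IsTwoFactor F ∧
      (∀ X : Finset V, (G.cut X).card = 3 → (G.cut X ∩ F).Nonempty) ∧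
      ∑ S ∈ oddSets G F, y S ≤ ∑ S ∈ allOdd G,
        y S * ((((G.cut S).card : ℝ) - 3) / (3 * ((G.cut S).card - 1))) := by
  obtain ⟨F, hF, h3, hle⟩ := avg G hc hb (allOdd G) (fun S hS => by
    obtain ⟨F, _, h⟩ := mem_allOdd.1 hS
    exact (mem_oddSets.1 h).1) y hy
  refine ⟨F, hF, h3, le_trans ?_ hle⟩
  refine Finset.sum_le_sum_of_subset_of_nonneg ?_ fun S _ _ => hy S
  intro S hS
  rw [Finset.mem_filter]
  obtain ⟨_, c, hcs⟩ := mem_oddSets.1 hS
  exact ⟨mem_allOdd.2 ⟨F, hF, hS⟩, cut_comp G (noloop G hc hb) c hcs⟩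

/-- **Main theorem.** -/
theorem main (G : OrGraph V E) (hc : G.Cubic) (hb : G.Bridgeless) (t : ℕ)
    (hcon : t = 1 ∨ ∀ X : Finset V, G.HasCycleIn X → G.HasCycleIn Xᶜ →
      5 * t - 1 ≤ (G.cut X).card)
    (y : Finset V → ℝ) (hy : ∀ S, 0 ≤ y S)
    (h1 : ∀ F : Finset E, G.IsTwoFactor F →
      (∀ X : Finset V, (G.cut X).card = 3 → (G.cut X ∩ F).Nonempty) →
      2 * t < G.oddCount F → 1 ≤ ∑ S ∈ oddSets G F, y S)
    (h2 : ∑ S ∈ allOdd G,
      y S * ((((G.cut S).card : ℝ) - 3) / (3 * ((G.cut S).card - 1))) < 1) :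
    ∃ φ₂ φ₄ : E → ℤ, G.IsHalfFlowPair φ₂ φ₄ := by
  obtain ⟨F, hF, h3, hle⟩ := factor G hc hb y hy
  by_cases ht : G.oddCount F ≤ 2 * t
  · obtain ⟨φ₂, φ₄, h, _⟩ := good G hc hb t hcon F hF h3 ht
    exact ⟨φ₂, φ₄, h⟩
  · exfalso
    have h4 := h1 F hF h3 (by omega)
    linarith

theorem oddCount_le (G : OrGraph V E) (F : Finset E) : G.oddCount F ≤ (oddSets G F).card := by
  classical
  unfold OrGraph.oddCount
  rw [← Set.ncard_coe_finset]
  refine Set.ncard_le_ncard_of_injOn (fun c => c.supp.toFinset) ?_ ?_ (Finset.finite_toSet _)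
  · intro c hc
    rw [Finset.mem_coe, mem_oddSets]
    have h : Odd c.supp.ncard := hc
    refine ⟨?_, c, ?_⟩
    · rw [Set.ncard_eq_toFinset_card'] at h
      exact h
    · rw [Set.coe_toFinset]
  · intro c _ c' _ h
    exact SimpleGraph.ConnectedComponent.supp_injective (Set.toFinset_inj.1 h)

theorem even_oddCount (G : OrGraph V E) (hc : G.Cubic) (F : Finset E) : Even (G.oddCount F) := by
  have h := SimpleGraph.odd_ncard_oddComponents (G.sub F)
  have h2 : Even (Nat.card V) := by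
    rw [Nat.card_eq_fintype_card]
    exact even_card G hc
  by_contra hcon
  rw [Nat.not_even_iff_odd] at hcon
  exact (Nat.not_odd_iff_even.2 h2) (h.1 hcon)

/-- **Counting form.** -/
theorem count (G : OrGraph V E) (hc : G.Cubic) (hb : G.Bridgeless) (t : ℕ)
    (hcon : t = 1 ∨ ∀ X : Finset V, G.HasCycleIn X → G.HasCycleIn Xᶜ →
      5 * t - 1 ≤ (G.cut X).card)
    (hcard : ((allOdd G).filter fun S => 5 ≤ (G.cut S).card).card ≤ 6 * t + 6) :
    ∃ φ₂ φ₄ : E → ℤ, G.IsHalfFlowPair φ₂ φ₄ := by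
  refine main G hc hb t hcon (fun _ => 1 / (2 * (t : ℝ) + 2)) (fun _ => by positivity) ?_ ?_
  · intro F _ _ hlt
    have h1 := oddCount_le G F
    obtain ⟨m, hm⟩ := even_oddCount G hc F
    have h2 : 2 * t + 2 ≤ (oddSets G F).card := by omega
    rw [Finset.sum_const, nsmul_eq_mul, mul_one_div, le_div_iff₀ (by positivity), one_mul]
    exact_mod_cast h2
  · have hodd : ∀ S ∈ allOdd G, Odd S.card := fun S hS => by
      obtain ⟨F, _, h⟩ := mem_allOdd.1 hS
      exact (mem_oddSets.1 h).1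
    rw [← Finset.sum_filter_add_sum_filter_not (allOdd G) (fun S => 5 ≤ (G.cut S).card)]
    have h0 : ∑ S ∈ (allOdd G).filter (fun S => ¬ 5 ≤ (G.cut S).card), 1 / (2 * (t : ℝ) + 2) *
        ((((G.cut S).card : ℝ) - 3) / (3 * ((G.cut S).card - 1))) = 0 := by
      refine Finset.sum_eq_zero fun S hS => ?_
      rw [Finset.mem_filter] at hS
      have h3 := cut_three G hc hb S (hodd S hS.1)
      obtain ⟨m, hm⟩ := cut_odd G hc S (hodd S hS.1)
      have h4 : (G.cut S).card = 3 := by omega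
      rw [h4]; norm_num
    rw [h0, add_zero]
    rcases ((allOdd G).filter fun S => 5 ≤ (G.cut S).card).eq_empty_or_nonempty with he | hne
    · rw [he, Finset.sum_empty]; norm_num
    · have h5 : ∑ S ∈ (allOdd G).filter (fun S => 5 ≤ (G.cut S).card), 1 / (2 * (t : ℝ) + 2) *
          ((((G.cut S).card : ℝ) - 3) / (3 * ((G.cut S).card - 1))) <
          ∑ S ∈ (allOdd G).filter (fun S => 5 ≤ (G.cut S).card), 1 / (2 * (t : ℝ) + 2) * (1 / 3) := by
        refine Finset.sum_lt_sum_of_nonempty hne fun S hS => ?_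
        rw [Finset.mem_filter] at hS
        have h5 : (5 : ℝ) ≤ (G.cut S).card := by exact_mod_cast hS.2
        refine mul_lt_mul_of_pos_left ?_ (by positivity)
        rw [div_lt_div_iff₀ (by linarith) (by norm_num)]
        linarith
      refine h5.trans_le ?_
      rw [Finset.sum_const, nsmul_eq_mul]
      have h6 : (((allOdd G).filter fun S => 5 ≤ (G.cut S).card).card : ℝ) ≤ 6 * t + 6 := by
        exact_mod_cast hcard
      calc (((allOdd G).filter fun S => 5 ≤ (G.cut S).card).card : ℝ) *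
            (1 / (2 * (t : ℝ) + 2) * (1 / 3))
          ≤ (6 * t + 6) * (1 / (2 * (t : ℝ) + 2) * (1 / 3)) :=
            mul_le_mul_of_nonneg_right h6 (by positivity)
        _ = 1 := by field_simp; ring

end Pool.Agent.TH583.FO
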