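import Pool.Agent.TH583.FO.Main
import Pool.Agent.Helper347.SabDefs

/-!
# Colouring the inside of a vertex set that contains few odd circuits of 2-factors
-/

set_option autoImplicit false
set_option linter.unusedSectionVars false

namespace Pool.Agent.TH583.FO

open Finset Pool.Agent.H160R2.HF Pool.Agent.Helper347.Sab

variable {V E : Type} [Fintype V] [DecidableEq V] [Fintype E] [DecidableEq E]

/-- an orientation -/
noncomputable def orient (G : MGraph V E) : OrGraph V E :=
  ⟨fun e => (Quot.out (G.ends e)).1, fun e => (Quot.out (G.ends e)).2⟩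

theorem ends_eq (G : MGraph V E) (e : E) : G.ends e = s((orient G).t e, (orient G).h e) :=
  (Quot.out_eq (G.ends e)).symm

theorem mem_ends (G : MGraph V E) (e : E) (v : V) :
    v ∈ G.ends e ↔ v = (orient G).t e ∨ v = (orient G).h e := by
  rw [ends_eq G e]
  exact Sym2.mem_iff

theorem or_ne (G : MGraph V E) (e : E) : (orient G).t e ≠ (orient G).h e := by
  intro h
  apply G.loopless e
  rw [ends_eq G e, h]
  exact Sym2.mk_isDiag_iff.2 rfl

theorem deg_or (G : OrGraph V E) (hl : ∀ e, G.t e ≠ G.h e) (F : Finset E) (v : V) :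
    G.deg F v = (F.filter fun e => G.t e = v ∨ G.h e = v).card := by
  unfold OrGraph.deg
  rw [← Finset.card_union_of_disjoint, ← Finset.filter_or]
  rw [Finset.disjoint_filter]
  intro e _ h1 h2
  exact hl e (h1.trans h2.symm)

theorem deg_eq (G : MGraph V E) (F : Finset E) (v : V) : (orient G).deg F v = dg G F v := by
  rw [deg_or _ (or_ne G)]
  unfold dg
  congr 1
  refine Finset.filter_congr fun e _ => ?_
  rw [mem_ends]
  exact ⟨fun h => h.imp Eq.symm Eq.symm, fun h => h.imp Eq.symm Eq.symm⟩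

theorem bridgeless (G : MGraph V E)
    (hbr : ∀ e : E, ∃ X : Finset E, IsCircuit G X ∧ e ∈ X) : (orient G).Bridgeless := by
  classical
  intro e
  by_contra hcon
  obtain ⟨S, hS⟩ : ∃ S : Finset V, S = univ.filter fun v =>
    ((orient G).sub (univ.erase e)).Reachable ((orient G).t e) v := ⟨_, rfl⟩
  have hcut : (orient G).cut S = {e} := by
    ext f
    rw [OrGraph.cut, Finset.mem_filter, Finset.mem_singleton]
    constructor
    · rintro ⟨_, hf⟩
      by_contra hne
      apply hf
      have hadj : ((orient G).sub (univ.erase e)).Adj ((orient G).t f) ((orient G).h f) := by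
        rw [OrGraph.sub, SimpleGraph.fromRel_adj]
        exact ⟨or_ne G f, Or.inl ⟨f, Finset.mem_erase.2 ⟨hne, Finset.mem_univ _⟩, rfl, rfl⟩⟩
      rw [hS, Finset.mem_filter, Finset.mem_filter]
      exact ⟨fun h => ⟨Finset.mem_univ _, h.2.trans hadj.reachable⟩,
        fun h => ⟨Finset.mem_univ _, h.2.trans hadj.symm.reachable⟩⟩
    · rintro rfl
      refine ⟨Finset.mem_univ _, ?_⟩
      rw [hS, Finset.mem_filter, Finset.mem_filter]
      intro h
      exact hcon (h.1 ⟨Finset.mem_univ _, .rfl⟩).2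
  obtain ⟨X, hX, heX⟩ := hbr e
  have h := (orient G).handshake X S
  have h1 : (orient G).cut S ∩ X = {e} := by
    rw [hcut, Finset.inter_eq_left, Finset.singleton_subset_iff]
    exact heX
  have h2 : Even (∑ v ∈ S, (orient G).deg X v) := Finset.even_sum _ fun v _ => by
    rw [deg_eq]
    rcases hX.2.1 v with h | h <;> rw [h] <;> decide
  rw [h, h1, Finset.card_singleton] at h2
  obtain ⟨m, hm⟩ := h2
  omega

theorem unique_at (G : OrGraph V E) (hl : ∀ e, G.t e ≠ G.h e) {P : Finset E} {v : V}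
    (h : G.deg P v = 1) {e f : E} (he : e ∈ P) (hf : f ∈ P) (hev : G.t e = v ∨ G.h e = v)
    (hfv : G.t f = v ∨ G.h f = v) : e = f := by
  rw [deg_or G hl] at h
  exact Finset.card_le_one.1 h.le e (Finset.mem_filter.2 ⟨he, hev⟩) f
    (Finset.mem_filter.2 ⟨hf, hfv⟩)

theorem deg_sdiff (G : OrGraph V E) {P Q : Finset E} (h : P ⊆ Q) (v : V) :
    G.deg Q v = G.deg P v + G.deg (Q \ P) v := by
  unfold OrGraph.deg
  have h3 : ∀ k : E → V, (Q.filter (fun e => k e = v)).card =
      (P.filter (fun e => k e = v)).card + ((Q \ P).filter (fun e => k e = v)).card := by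
    intro k
    rw [← Finset.card_union_of_disjoint]
    · rw [← Finset.filter_union, Finset.union_sdiff_of_subset h]
    · exact Finset.disjoint_filter_filter Finset.disjoint_sdiff
  rw [h3, h3]
  ring

/-- **Colouring.** -/
theorem colour (G : OrGraph V E) (hc : G.Cubic) (hb : G.Bridgeless) (K : Finset V)
    (hfew : ∑ S ∈ (allOdd G).filter (fun S => S ⊆ K),
      (((G.cut S).card : ℝ) - 3) / (3 * ((G.cut S).card - 1)) < 1) :
    ∃ col : E → Fin 3, ∀ v ∈ K, ∀ e f : E, (G.t e = v ∨ G.h e = v) → (G.t f = v ∨ G.h f = v) →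
      e ≠ f → col e ≠ col f := by
  classical
  obtain ⟨F, hF, _, hle⟩ := factor G hc hb (fun S => if S ⊆ K then 1 else 0) (fun S => by
    show (0 : ℝ) ≤ if S ⊆ K then 1 else 0
    split_ifs <;> norm_num)
  have hl := noloop G hc hb
  have hsum : ∑ S ∈ allOdd G, (if S ⊆ K then (1 : ℝ) else 0) *
      ((((G.cut S).card : ℝ) - 3) / (3 * ((G.cut S).card - 1))) < 1 := by
    rw [Finset.sum_filter] at hfew
    refine lt_of_le_of_lt (le_of_eq (Finset.sum_congr rfl fun S _ => ?_)) hfew
    split_ifs
    · rw [one_mul]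
    · rw [zero_mul]
  have hno : ∀ S ∈ oddSets G F, ¬ S ⊆ K := by
    intro S hS hSK
    have h1 : (if S ⊆ K then (1 : ℝ) else 0) ≤ ∑ S ∈ oddSets G F, if S ⊆ K then (1 : ℝ) else 0 :=
      Finset.single_le_sum (f := fun S => if S ⊆ K then (1 : ℝ) else 0)
        (fun S _ => by
          show (0 : ℝ) ≤ if S ⊆ K then 1 else 0
          split_ifs <;> norm_num) hS
    rw [if_pos hSK] at h1
    linarith
  have hrep : ∀ c : (G.sub F).ConnectedComponent, ∃ u : V, (G.sub F).connectedComponentMk u = c ∧
      (Odd c.supp.ncard → u ∉ K) := by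
    intro c
    by_cases ho : Odd c.supp.ncard
    · have h1 : c.supp.toFinset ∈ oddSets G F := by
        rw [mem_oddSets]
        refine ⟨?_, c, ?_⟩
        · rw [Set.ncard_eq_toFinset_card'] at ho
          exact ho
        · rw [Set.coe_toFinset]
      have h2 := hno _ h1
      rw [Finset.not_subset] at h2
      obtain ⟨u, hu, huK⟩ := h2
      rw [Set.mem_toFinset, SimpleGraph.ConnectedComponent.mem_supp_iff] at hu
      exact ⟨u, hu, fun _ => huK⟩
    · obtain ⟨u, hu⟩ := c.exists_rep
      exact ⟨u, hu, fun h => absurd h ho⟩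
  choose rep hrep1 hrep2 using hrep
  obtain ⟨U, hU⟩ : ∃ U : Finset V, U = univ.filter fun v =>
    Odd ((G.sub F).connectedComponentMk v).supp.ncard ∧
      rep ((G.sub F).connectedComponentMk v) = v := ⟨_, rfl⟩
  have hmU : ∀ v, v ∈ U ↔ Odd ((G.sub F).connectedComponentMk v).supp.ncard ∧
      rep ((G.sub F).connectedComponentMk v) = v := by
    intro v
    rw [hU, Finset.mem_filter]
    exact ⟨fun h => h.2, fun h => ⟨Finset.mem_univ _, h⟩⟩
  obtain ⟨B, hBF, hB⟩ := Pool.Agent.H884R2.HFP.exists_matching_of_reps G F hF U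
    (fun u hu v hv huv => by
      rw [hmU] at hu hv
      have h1 := SimpleGraph.ConnectedComponent.sound huv
      rw [← hu.2, ← hv.2, h1])
    (fun v => by
      constructor
      · intro ho
        refine ⟨rep ((G.sub F).connectedComponentMk v), ?_, ?_⟩
        · rw [hmU, hrep1]
          exact ⟨ho, rfl⟩
        · exact SimpleGraph.ConnectedComponent.exact (hrep1 _)
      · rintro ⟨u, hu, huv⟩
        rw [hmU] at hu
        rw [← SimpleGraph.ConnectedComponent.sound huv]
        exact hu.1)
  have hBK : ∀ v ∈ K, G.deg B v = 1 := by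
    intro v hv
    rw [hB, if_neg]
    intro h
    rw [hmU] at h
    exact hrep2 _ h.1 (by rw [h.2]; exact hv)
  refine ⟨fun e => if e ∈ B then 0 else if e ∈ F then 1 else 2, fun v hv e f he hf hef hcol => ?_⟩
  have d1 := hBK v hv
  have d2 : G.deg (F \ B) v = 1 := by
    have h := deg_sdiff G hBF v
    rw [hF v, d1] at h
    omega
  have d3 : G.deg (univ \ F) v = 1 := by
    have h := deg_sdiff G (Finset.subset_univ F) v
    rw [hF v, hc v] at h
    omega
  by_cases e1 : e ∈ B <;> by_cases f1 : f ∈ B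
  · exact hef (unique_at G hl d1 e1 f1 he hf)
  · by_cases f2 : f ∈ F <;> simp [e1, f1, f2] at hcol
  · by_cases e2 : e ∈ F <;> simp [e1, f1, e2] at hcol
  · by_cases e2 : e ∈ F <;> by_cases f2 : f ∈ F
    · exact hef (unique_at G hl d2 (Finset.mem_sdiff.2 ⟨e2, e1⟩) (Finset.mem_sdiff.2 ⟨f2, f1⟩)
        he hf)
    · simp [e1, f1, e2, f2] at hcol
    · simp [e1, f1, e2, f2] at hcol
    · exact hef (unique_at G hl d3 (Finset.mem_sdiff.2 ⟨Finset.mem_univ _, e2⟩)
        (Finset.mem_sdiff.2 ⟨Finset.mem_univ _, f2⟩) he hf)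

end Pool.Agent.TH583.FO
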